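import Pool.Agent.H.MP_4bd73f_an.A

namespace Pool.Agent.Results.MP_4bd73f_an.Yes

open Finset Filter Topology Pool.Agent.H.MP_4bd73f_an

variable {𝕜 X : Type} [RCLike 𝕜] [NormedAddCommGroup X] [NormedSpace 𝕜 X]

/-- a basis with its biorthogonal functionals -/
structure IsBasis (x : ℕ → X) (x' : ℕ → X →L[𝕜] 𝕜) : Prop where
  dense : Dense (Submodule.span 𝕜 (Set.range x) : Set X)
  biorth : ∀ n k, x' n (x k) = if n = k then 1 else 0
  total : ∀ f, (∀ n, x' n f = 0) → f = 0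
  bdd : ∃ K : ℝ, ∀ n, ‖x n‖ ≤ K ∧ ‖x' n‖ ≤ K

/-- quasi-greedy bases -/
def QuasiGreedy (x : ℕ → X) (x' : ℕ → X →L[𝕜] 𝕜) : Prop :=
  ∃ C : ℝ, ∀ (f : X) (A : Finset ℕ), A.Nonempty → (∀ n ∈ A, ∀ k ∉ A, ‖x' k f‖ ≤ ‖x' n f‖) →
    ‖∑ n ∈ A, x' n f • x n‖ ≤ C * ‖f‖

variable (𝕜) in
/-- the lower democracy function -/
noncomputable def phi (x : ℕ → X) (m : ℕ) : ℝ :=
  sInf {t | ∃ (A : Finset ℕ) (ε : ℕ → 𝕜), m ≤ A.card ∧ (∀ n, ‖ε n‖ = 1) ∧
    t = ‖∑ n ∈ A, ε n • x n‖}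

/-- the m-th term of the nonincreasing rearrangement of the moduli of a null sequence -/
noncomputable def rearr (a : ℕ → 𝕜) (m : ℕ) : ℝ :=
  sInf {t | 0 ≤ t ∧ {n | t < ‖a n‖}.encard < m}

/-- the term of index m+1 of the series defining the Lorentz norm for the primitive sequence s -/
noncomputable def term (s : ℕ → ℝ) (r : ℝ) (a : ℕ → 𝕜) (m : ℕ) : ℝ :=
  rearr a (m + 1) ^ r * s (m + 1) ^ (r - 1) * (s (m + 1) - s m)

variable {x : ℕ → X} {x' : ℕ → X →L[𝕜] 𝕜}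

theorem phi_bdd (m : ℕ) : BddBelow {t | ∃ (A : Finset ℕ) (ε : ℕ → 𝕜), m ≤ A.card ∧
    (∀ n, ‖ε n‖ = 1) ∧ t = ‖∑ n ∈ A, ε n • x n‖} :=
  ⟨0, fun _ ⟨_, _, _, _, h⟩ => h ▸ norm_nonneg _⟩

theorem phi_nonneg (m : ℕ) : 0 ≤ phi 𝕜 x m :=
  Real.sInf_nonneg fun _ ⟨_, _, _, _, h⟩ => h ▸ norm_nonneg _

theorem phi_mono : Monotone (phi 𝕜 x) := fun m n h =>
  csInf_le_csInf (phi_bdd m) ⟨_, range n, 1, by simp, by simp, rfl⟩
    fun _ ⟨A, ε, h1, h2⟩ => ⟨A, ε, h.trans h1, h2⟩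

theorem IsBasis.coef (h : IsBasis x x') (A : Finset ℕ) (c : ℕ → 𝕜) (k : ℕ) :
    x' k (∑ n ∈ A, c n • x n) = if k ∈ A then c k else 0 := by
  simp [h.biorth]

theorem IsBasis.fin (h : IsBasis x x') (f : X) {τ : ℝ} (hτ : 0 < τ) :
    {n | τ < ‖x' n f‖}.Finite := by
  obtain ⟨K, hK⟩ := h.bdd
  have hK0 : 0 ≤ K := (norm_nonneg _).trans (hK 0).1
  obtain ⟨g, hg, h1⟩ := h.dense.exists_dist_lt f (show 0 < τ / (K + 1) by positivity)
  obtain ⟨c, rfl⟩ := Finsupp.mem_span_range_iff_exists_finsupp.1 hg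
  refine c.support.finite_toSet.subset fun n hn => by_contra fun h2 => ?_
  have h3 := (x' n).le_of_opNorm_le (hK n).2 (f - c.sum fun i a => a • x i)
  rw [map_sub, Finsupp.sum, h.coef, if_neg fun h' => h2 (mem_coe.2 h'), sub_zero] at h3
  rw [dist_eq_norm, lt_div_iff₀ (by positivity), Finsupp.sum] at h1
  have h4 : τ < ‖x' n f‖ := hn
  nlinarith [norm_nonneg (f - ∑ i ∈ c.support, c i • x i)]

theorem signs {K : ℝ} (c ε : ℕ → 𝕜) (hε : ∀ n, (‖c n‖ : 𝕜) * ε n = c n) (B₀ : Finset ℕ)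
    (hK : ∀ B ⊆ B₀, (∀ n ∈ B, ∀ k ∈ B₀, k ∉ B → ‖c k‖ ≤ ‖c n‖) → ‖∑ n ∈ B, c n • x n‖ ≤ K)
    (B : Finset ℕ) : B ⊆ B₀ → (∀ n ∈ B, ∀ k ∈ B₀, k ∉ B → ‖c k‖ ≤ ‖c n‖) → ∀ τ : ℝ, 0 < τ →
      (∀ n ∈ B, τ ≤ ‖c n‖) → ‖∑ n ∈ B, ε n • x n - (τ⁻¹ : 𝕜) • ∑ n ∈ B, c n • x n‖ ≤ τ⁻¹ * K := by
  induction B using Finset.induction_on_min_value fun n => ‖c n‖ with
  | empty =>
    intro _ _ τ hτ _
    simpa using mul_nonneg (inv_pos.2 hτ).le ((norm_nonneg _).trans (hK ∅ (by simp) (by simp)))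
  | insert a B ha h1 ih =>
    intro h2 h3 τ hτ h4
    have h5 := h4 a (mem_insert_self _ _)
    have h6 := hτ.trans_le h5
    have h7 := ih ((subset_insert _ _).trans h2) (fun n hn k hk h => by
      by_cases h7 : k = a
      · exact h7 ▸ h1 n hn
      · exact h3 n (mem_insert_of_mem hn) k hk (by simp [h, h7])) _ h6 h1
    have h8 : ∑ n ∈ insert a B, ε n • x n - (τ⁻¹ : 𝕜) • ∑ n ∈ insert a B, c n • x n =
        (∑ n ∈ B, ε n • x n - (‖c a‖⁻¹ : 𝕜) • ∑ n ∈ B, c n • x n) -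
          ((τ⁻¹ - ‖c a‖⁻¹ : ℝ) : 𝕜) • ∑ n ∈ insert a B, c n • x n := by
      have : ε a = (‖c a‖⁻¹ : 𝕜) * c a := by
        rw [eq_inv_mul_iff_mul_eq₀ (by exact_mod_cast h6.ne'), hε]
      rw [sum_insert ha, sum_insert ha, this]
      push_cast
      module
    have h9 : 0 ≤ τ⁻¹ - ‖c a‖⁻¹ := sub_nonneg.2 (inv_anti₀ hτ h5)
    rw [h8]
    refine (norm_sub_le_of_le h7 ((norm_smul_le _ _).trans (mul_le_mul_of_nonneg_left
      (hK _ h2 h3) (norm_nonneg _)))).trans_eq ?_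
    rw [RCLike.norm_ofReal, abs_of_nonneg h9]
    ring

theorem blocks {s : ℕ → ℝ} (h0 : ∀ m, 0 ≤ s m) (hs : Monotone s) (a : ℕ → 𝕜) (r : ℕ) {t : ℝ}
    {p q : ℕ} (h : {n | t < ‖a n‖}.encard ≤ p) (ht : 0 ≤ t) (hpq : p ≤ q) :
    ∑ m ∈ Ico p q, term s (r + 1 : ℕ) a m ≤ (t * s q) ^ (r + 1) := by
  calc _ ≤ ∑ m ∈ Ico p q, t ^ (r + 1) * s q ^ r * (s (m + 1) - s m) := sum_le_sum fun m hm => by
        have h1 : rearr a (m + 1) ≤ t := csInf_le ⟨0, fun _ h => h.1⟩ ⟨ht, h.trans_lt (by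
          exact_mod_cast Nat.lt_succ_of_le (mem_Ico.1 hm).1)⟩
        have h2 : 0 ≤ rearr a (m + 1) := Real.sInf_nonneg fun _ h => h.1
        have h3 := sub_nonneg.2 (hs m.le_succ)
        have h4 := h0 (m + 1)
        rw [term, Real.rpow_natCast, Nat.cast_succ, add_sub_cancel_right, Real.rpow_natCast]
        gcongr
        exact hs (mem_Ico.1 hm).2
    _ ≤ _ := by
        rw [← mul_sum, sum_Ico_sub _ hpq, mul_pow, pow_succ (s q), mul_assoc]
        have := h0 q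
        gcongr
        linarith [h0 p]

theorem result {Y : Type} [CompleteSpace X] [NormedAddCommGroup Y] [NormedSpace 𝕜 Y]
    [UniformConvexSpace Y] (e : X ≃L[𝕜] Y) (x : ℕ → X) (x' : ℕ → X →L[𝕜] 𝕜) (h : IsBasis x x')
    (hq : QuasiGreedy x x') : ∃ r : ℝ, 1 ≤ r ∧ ∃ C : ℝ, ∀ f : X,
      Summable (term (phi 𝕜 x) r fun n => x' n f) ∧
      (∑' m, term (phi 𝕜 x) r (fun n => x' n f) m) ^ (1 / r) ≤ C * ‖f‖ := by
  classical
  obtain ⟨C₀, hC₀⟩ := hq
  set C := max C₀ 1 with hCd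
  have hC : 0 < C := one_pos.trans_le (le_max_right _ _)
  have q1 : ∀ (f : X) (A : Finset ℕ), (∀ n ∈ A, ∀ k ∉ A, ‖x' k f‖ ≤ ‖x' n f‖) →
      ‖∑ n ∈ A, x' n f • x n‖ ≤ C * ‖f‖ := fun f A hA => by
    rcases A.eq_empty_or_nonempty with rfl | h1
    · simpa using mul_nonneg hC.le (norm_nonneg f)
    · exact (hC₀ f A h1 hA).trans (mul_le_mul_of_nonneg_right (le_max_left _ _) (norm_nonneg _))
  have q2 : ∀ (f : X) {τ : ℝ} (hτ : 0 < τ), ‖∑ n ∈ (h.fin f hτ).toFinset, x' n f • x n‖ ≤ C * ‖f‖ :=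
    fun f τ hτ => q1 f _ fun n hn k hk => by
      simp only [Set.Finite.mem_toFinset, Set.mem_ofPred_eq, not_lt] at hn hk
      exact hk.trans hn.le
  have win : ∀ (u v : X) (α β : ℝ), 0 < α → α ≤ β →
      (∀ n, x' n v = if α < ‖x' n u‖ ∧ ‖x' n u‖ ≤ β then x' n u else 0) → ‖v‖ ≤ 2 * C * ‖u‖ :=
    fun u v α β h1 h2 h3 => by
      have h4 : v = ∑ n ∈ (h.fin u h1).toFinset, x' n u • x n -
          ∑ n ∈ (h.fin u (h1.trans_le h2)).toFinset, x' n u • x n :=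
        sub_eq_zero.1 (h.total _ fun n => by
          simp only [map_sub, h.coef, h3, Set.Finite.mem_toFinset, Set.mem_ofPred_eq]
          by_cases h4 : β < ‖x' n u‖
          · simp [h4, h2.trans_lt h4]
          · simp [h4, not_lt.1 h4])
      rw [h4]
      exact (norm_sub_le_of_le (q2 u h1) (q2 u (h1.trans_le h2))).trans_eq (by ring)
  obtain ⟨k, hk⟩ := james e (show 0 < 1 / (8 * C ^ 2) by positivity)
  obtain ⟨K, hK⟩ := h.bdd
  have hK0 : 0 ≤ K := (norm_nonneg _).trans (hK 0).1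
  set D : ℝ := 2 * (2 ^ (k + 1) : ℕ) * ((k + 1 : ℕ) + 1) * (2 * C) ^ (k + 2) with hD
  refine ⟨(k + 1 + 1 : ℕ), by exact_mod_cast (by omega : 1 ≤ k + 1 + 1), 8 * C * (D + 1) * C,
    fun f => ?_⟩
  set τ : ℕ → ℝ := fun j => (K * ‖f‖ + 1) / 2 ^ j with hτ
  have t0 : ∀ j, 0 < τ j := fun j => by positivity
  have t1 : Antitone τ := fun i j h => by
    simp only [hτ]
    gcongr
    norm_num
  have t2 : ∀ i j, 2 ^ j * τ (i + j) = τ i := fun i j => by
    simp only [hτ, pow_add]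
    field_simp
  set A : ℕ → Finset ℕ := fun j => (h.fin f (t0 j)).toFinset with hA
  have a1 : ∀ j n, n ∈ A j ↔ τ j < ‖x' n f‖ := fun j n => by simp [hA]
  have a2 : Monotone A := fun i j h n hn => (a1 _ _).2 ((t1 h).trans_lt ((a1 _ _).1 hn))
  have a0 : A 0 = ∅ := eq_empty_of_forall_notMem fun n hn => by
    have := (a1 _ _).1 hn
    simp only [hτ, pow_zero, div_one] at this
    linarith [(x' n).le_of_opNorm_le (hK n).2 f]
  set S : ℕ → X := fun j => ∑ n ∈ A j, x' n f • x n with hS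
  have s1 : ∀ p q n, p ≤ q → x' n (S q - S p) =
      if τ q < ‖x' n f‖ ∧ ‖x' n f‖ ≤ τ p then x' n f else 0 := fun p q n hpq => by
    simp only [map_sub, hS, h.coef, a1]
    by_cases h4 : τ p < ‖x' n f‖
    · simp [h4, (t1 hpq).trans_lt h4]
    · simp [h4, not_lt.1 h4]
  have s2 : ∀ p p' q' q, p ≤ p' → p' ≤ q' → q' ≤ q → ‖S q' - S p'‖ ≤ 2 * C * ‖S q - S p‖ :=
    fun p p' q' q h1 h2 h3 => win _ _ _ _ (t0 q') (t1 h2) fun n => by
      rw [s1 _ _ _ h2, s1 _ _ _ (h1.trans (h2.trans h3))]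
      by_cases h4 : τ q < ‖x' n f‖ ∧ ‖x' n f‖ ≤ τ p
      · rw [if_pos h4]
      · rw [if_neg h4, ite_self, if_neg fun h => h4 ⟨(t1 h3).trans_lt h.1, h.2.trans (t1 h1)⟩]
  have v1 := var (fun p q => ‖S q - S p‖) (2 * C) (2 ^ (k + 1)) (k + 1) (k + 2) (by omega) (by omega)
    (by positivity) (fun _ _ => norm_nonneg _) (by simp) s2 (fun p q h1 t h2 h3 => ?_)
    (by push_cast; exact (pow_succ' _ _).ge)
  swap
  · have m1 : ∀ i j, i ≤ j → j ≤ 2 ^ (k + 1) → t i ≤ t j := fun i j h4 => by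
      induction j, h4 using Nat.le_induction with
      | base => exact fun _ => le_rfl
      | succ j _ ih => exact fun h => (ih (by omega)).trans (le_self_add.trans (h3 j h).1)
    refine hk (fun j => S (t j) - S p) (2 * C * ‖S q - S p‖) (by positivity)
      (fun j hj => s2 _ _ _ _ le_rfl (h2.trans (m1 0 j j.zero_le hj.le))
        ((le_self_add.trans (h3 j hj).1).trans (h3 j hj).2.1)) fun i hi m hm => ?_
    simp only [sub_sub_sub_cancel_right]
    obtain ⟨l, hl⟩ : ∃ l, m + 2 ^ i = l + 1 := Nat.exists_eq_succ_of_ne_zero (by positivity)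
    have h4 : 0 < 2 ^ i := by positivity
    obtain ⟨h5, -, h6⟩ := h3 l (by omega)
    have n1 : ∀ z : 𝕜, ‖(2 ^ i : 𝕜) * z‖ = 2 ^ i * ‖z‖ := fun z => by simp
    have p2 : (0 : ℝ) < 2 ^ i := by positivity
    have h7 := win (∑ j ∈ range (2 ^ i), (S (t (m + 2 ^ i + j)) - S (t (m + j))))
      ((2 ^ i : 𝕜) • (S (t (l + 1)) - S (t l + (k + 1)))) (2 ^ i * τ (t (l + 1)))
      (2 ^ i * τ (t l + (k + 1))) (mul_pos p2 (t0 _)) (mul_le_mul_of_nonneg_left (t1 h5) p2.le)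
      fun n => ?_
    · rw [norm_smul, norm_pow, RCLike.norm_ofNat] at h7
      rw [show 1 / (8 * C ^ 2) * (2 * C * ‖S q - S p‖) * 2 ^ i =
        2 ^ i * (‖S q - S p‖ / 2) / (2 * C) by field_simp; norm_num, div_le_iff₀' (by positivity)]
      exact (mul_le_mul_of_nonneg_left h6 p2.le).trans h7
    rw [map_smul, s1 _ _ _ h5, map_sum, sum_congr rfl fun j hj => s1 _ _ n
      (m1 _ _ (by omega) (by have := mem_range.1 hj; omega)), ← sum_filter, sum_const, nsmul_eq_mul,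
      smul_eq_mul]
    set c := #{j ∈ range (2 ^ i) | τ (t (m + 2 ^ i + j)) < ‖x' n f‖ ∧ ‖x' n f‖ ≤ τ (t (m + j))}
      with hc
    have h8 : (c : ℝ) ≤ 2 ^ i := by
      exact_mod_cast (card_filter_le _ _).trans_eq (card_range _)
    rw [norm_mul, RCLike.norm_natCast]
    rcases le_or_gt ‖x' n f‖ (τ (t (l + 1))) with h9 | h9
    · rw [if_neg fun h => h.1.not_ge h9, if_neg fun h => h.1.not_ge
        (mul_le_mul h8 h9 (norm_nonneg _) p2.le), mul_zero]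
    rcases le_or_gt ‖x' n f‖ (τ (t l)) with h10 | h10
    · have : c = 2 ^ i := by
        rw [hc, filter_true_of_mem fun j hj => ?_, card_range]
        have := mem_range.1 hj
        exact ⟨(t1 (m1 _ _ (by omega) (by omega))).trans_lt h9,
          h10.trans (t1 (m1 _ _ (by omega) (by omega)))⟩
      rw [this]
      push_cast
      simp only [mul_lt_mul_iff_right₀ p2, mul_le_mul_iff_right₀ p2, mul_ite, mul_zero]
    · rw [if_neg fun h => h10.not_ge (h.2.trans (t1 le_self_add)), if_neg fun h => ?_, mul_zero]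
      rcases c.eq_zero_or_pos with h11 | h11
      · rw [h11, Nat.cast_zero, zero_mul] at h
        exact h.1.not_ge (mul_pos p2 (t0 _)).le
      · refine h10.not_ge ((le_mul_of_one_le_left (norm_nonneg _)
          (by exact_mod_cast h11)).trans (h.2.trans ?_))
        rw [← t2 (t l) (k + 1)]
        exact mul_le_mul_of_nonneg_right (pow_le_pow_right₀ one_le_two (by omega)) (t0 _).le
  have h1 : ∀ n, ∃ ε : 𝕜, ‖ε‖ = 1 ∧ (‖x' n f‖ : 𝕜) * ε = x' n f := fun n => by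
    by_cases h1 : x' n f = 0
    · exact ⟨1, by simp, by simp [h1]⟩
    · exact ⟨x' n f / ‖x' n f‖, by simp [h1], mul_div_cancel₀ _ (by simpa using h1)⟩
  choose ε e1 e2 using h1
  have h2 := geo (fun j => 2 * C * ‖S (j + 1) - S j‖) (fun j => τ j * ‖∑ n ∈ A j, ε n • x n‖) (k + 2)
    (by omega) (fun _ => by positivity) (fun j => mul_nonneg (t0 j).le (norm_nonneg _))
    (by simp [a0]) fun j => ?_
  swap
  · have h2 : S (j + 1) - S j = ∑ n ∈ A (j + 1) \ A j, x' n f • x n :=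
      (sum_sdiff_eq_sub (a2 j.le_succ)).symm
    have h3 := signs (x := x) (K := C * ‖S (j + 1) - S j‖) (fun n => x' n f) ε e2 (A (j + 1) \ A j)
      (fun B h3 h4 => by
        have h5 : ∀ n ∈ B, x' n (S (j + 1) - S j) = x' n f := fun n hn => by
          rw [h2, h.coef, if_pos (h3 hn)]
        rw [← sum_congr rfl (f := fun n => x' n (S (j + 1) - S j) • x n) fun n hn => by
          rw [h5 n hn]]
        refine q1 _ _ fun n hn i hi => ?_
        rw [h5 n hn, h2, h.coef]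
        split_ifs with h6
        · exact h4 n hn i h6 hi
        · simp) _ subset_rfl (fun _ _ _ h h' => absurd h h') _ (t0 (j + 1))
      fun n hn => ((a1 _ _).1 (mem_sdiff.1 hn).1).le
    have h4 := q1 (S (j + 1) - S j) (A (j + 1) \ A j) fun n hn i hi => by
      rw [h2, h.coef, if_neg hi]
      simp
    rw [sum_congr rfl (g := fun n => x' n f • x n) fun n hn => by rw [h2, h.coef, if_pos hn],
      ← h2] at h4
    rw [← h2] at h3
    have h5 := (norm_le_norm_sub_add _ _).trans (add_le_add h3 ((norm_smul_le _ _).trans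
      (mul_le_mul_of_nonneg_left h4 (norm_nonneg _))))
    rw [norm_inv, RCLike.norm_ofReal, abs_of_pos (t0 _), ← two_mul, ← mul_assoc, mul_comm 2,
      mul_assoc, le_inv_mul_iff₀ (t0 _)] at h5
    rw [← sum_sdiff (a2 j.le_succ), ← t2 j 1]
    have := mul_le_mul_of_nonneg_left (norm_add_le (∑ n ∈ A (j + 1) \ A j, ε n • x n)
      (∑ n ∈ A j, ε n • x n)) (t0 (j + 1)).le
    linarith
  have h3 : ∀ j, {n | τ j < ‖x' n f‖}.encard ≤ #(A j) := fun j =>
    (h.fin f (t0 j)).encard_eq_coe_toFinset_card.le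
  have h4 : ∀ J, ∑ m ∈ range #(A J), term (phi 𝕜 x) (k + 1 + 1 : ℕ) (fun n => x' n f) m ≤
      2 ^ (k + 2) * ∑ j ∈ range J, (τ (j + 1) * ‖∑ n ∈ A (j + 1), ε n • x n‖) ^ (k + 2) := fun J => by
    induction J with
    | zero => simp [a0]
    | succ J ih =>
      have h4 := card_le_card (a2 J.le_succ)
      rw [← sum_range_add_sum_Ico _ h4, sum_range_succ, mul_add, ← mul_pow, ← mul_assoc,
        ← pow_one (2 : ℝ), t2, pow_one]
      exact add_le_add ih ((blocks phi_nonneg phi_mono _ _ (h3 J) (t0 J).le h4).trans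
        (pow_le_pow_left₀ (mul_nonneg (t0 J).le (phi_nonneg _)) (mul_le_mul_of_nonneg_left
          (csInf_le (phi_bdd _) ⟨_, ε, le_rfl, e1, rfl⟩) (t0 J).le) _))
  have n0 : ∀ m, 0 ≤ term (phi 𝕜 x) (k + 1 + 1 : ℕ) (fun n => x' n f) m := fun m =>
    mul_nonneg (mul_nonneg (Real.rpow_nonneg (Real.sInf_nonneg fun _ h => h.1) _)
      (Real.rpow_nonneg (phi_nonneg _) _)) (sub_nonneg.2 (phi_mono m.le_succ))
  have h5 : ∀ J, ∑ m ∈ range #(A J), term (phi 𝕜 x) (k + 1 + 1 : ℕ) (fun n => x' n f) m ≤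
      (8 * C * (D + 1) * C * ‖f‖) ^ (k + 2) := fun J => by
    have h5 := v1 _ 0 J rfl
    have h6 : ‖S J - S 0‖ ≤ C * ‖f‖ := by simpa [hS, a0] using q2 f (t0 J)
    have h7 : D ≤ (D + 1) ^ (k + 2) := (le_add_of_nonneg_right zero_le_one).trans
      (le_self_pow₀ (le_add_of_nonneg_left (by positivity)) (by omega))
    rw [← range_eq_Ico, ← hD] at h5
    refine (h4 J).trans ((mul_le_mul_of_nonneg_left (h2 J) (by positivity)).trans ?_)
    rw [show 8 * C * (D + 1) * C * ‖f‖ = 2 * (2 * (2 * C * ((D + 1) * (C * ‖f‖)))) by ring,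
      mul_pow 2, mul_pow 2, mul_pow (2 * C), mul_pow (D + 1), sum_congr rfl fun j _ => mul_pow _ _ _,
      ← mul_sum]
    gcongr
    refine h5.trans ?_
    gcongr
  have h6 : ∀ M, ∑ m ∈ range M, term (phi 𝕜 x) (k + 1 + 1 : ℕ) (fun n => x' n f) m ≤
      (8 * C * (D + 1) * C * ‖f‖) ^ (k + 2) := fun M => by
    have h6 : Tendsto τ atTop (𝓝 0) :=
      tendsto_const_nhds.div_atTop (tendsto_pow_atTop_atTop_of_one_lt one_lt_two)
    have h7 := ((h6.mul_const (phi 𝕜 x M)).pow (k + 1 + 1)).const_add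
      ((8 * C * (D + 1) * C * ‖f‖) ^ (k + 2))
    rw [zero_mul, zero_pow (by omega), add_zero] at h7
    refine ge_of_tendsto' h7 fun J => ?_
    rcases le_total M #(A J) with h8 | h8
    · exact ((sum_le_sum_of_subset_of_nonneg (range_subset_range.2 h8) fun m _ _ => n0 m).trans
        (h5 J)).trans (le_add_of_nonneg_right (pow_nonneg (mul_nonneg (t0 J).le (phi_nonneg _)) _))
    · rw [← sum_range_add_sum_Ico _ h8]
      exact add_le_add (h5 J) (blocks phi_nonneg phi_mono _ _ (h3 J) (t0 J).le h8)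
  refine ⟨summable_of_sum_range_le n0 h6, ?_⟩
  rw [one_div, Real.rpow_inv_le_iff_of_pos (tsum_nonneg n0) (by positivity) (by positivity),
    Real.rpow_natCast]
  exact Real.tsum_le_of_sum_range_le n0 h6

end Pool.Agent.Results.MP_4bd73f_an.Yes
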